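import Pool.Agent.H9.EyeDefs
import Pool.Agent.H9.EyeF

/-! MP_794bd6_an, Q1: negative answer, with a real analytic diffeomorphism of the two-torus. -/

namespace Pool.Agent.Results.MP_794bd6_an.Disproof

open Pool.Agent.H9.Eye MeasureTheory

/-- There is a real analytic diffeomorphism `f` of the two-torus `(ℝ/2πℤ)²` such that for EVERY
`f`-invariant Borel probability measure `ρ` the function `χ₊` exists `ρ`-almost everywhere, is
integrable, and the Kolmogorov-Sinai entropy is strictly smaller than `∫ χ₊ dρ`. -/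
theorem result : ∃ (f : T2 ≃ₜ T2) (F : ℝ × ℝ ≃ ℝ × ℝ), IsTorusDiffeo f F ∧
    (∃ ρ : Measure T2, IsProbabilityMeasure ρ ∧ MeasurePreserving f ρ ρ) ∧
    ∀ ρ : Measure T2, IsProbabilityMeasure ρ → MeasurePreserving f ρ ρ →
      (∃ χ : T2 → ℝ, Measurable χ ∧ Integrable χ ρ ∧ IsChiPlus F ρ χ) ∧
      ∀ χ : T2 → ℝ, IsChiPlus F ρ χ → entropy f ρ < ((∫ z, χ z ∂ρ : ℝ) : EReal) :=
  ⟨fH, FE, isTorusDiffeo, exists_inv, fun ρ _ hf => final ρ hf⟩

end Pool.Agent.Results.MP_794bd6_an.Disproof
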